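import Pool.Agent.N206.CG.Stm2

/-!
Project CG, leaf G1: automorphisms preserving the subgroup `Hs` permute the letters by `1` or `J`.
-/

namespace N861.CG

open Pool.Agent.N206.CG Classical

variable {L : Loc} (S : Sys L)

theorem exists_rho (L : Loc) (m : ℕ) : ∃ b, L.rho m b ≠ 1 := by
  obtain ⟨x, hx, y, hy, hxy⟩ := L.X_two m
  obtain ⟨g, hg, hgx⟩ := L.trans m x y
  rw [← L.rho_range m] at hg
  obtain ⟨b, rfl⟩ := hg
  refine ⟨b, fun h => hxy ?_⟩
  rw [h] at hgx
  simpa using hgx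

theorem exists_root (m : ℕ) : ∃ d : S.D m, S.root m d ≠ 1 := by
  obtain ⟨b, hb⟩ := exists_rho L m
  refine ⟨S.rt m ⟨L.rho m b, by rw [← L.rho_range m]; exact ⟨b, rfl⟩⟩, ?_⟩
  rw [S.root_rt]
  exact hb

/-- all elements of `H` have trivial second root below `x` -/
def T (m : ℕ) (x : L.E m) : Prop :=
  ∀ h b, S.HH m b h → S.root (m + 1) (S.sec m h x) = 1

/-- linked letters -/
def Lk (m : ℕ) (x : L.E m) : Prop :=
  ∃ y, y ≠ x ∧ y ≠ L.z m ∧ ∀ h b, S.HH m b h → S.root (m + 1) (S.sec m h x) = 1 →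
    S.root (m + 1) (S.sec m h y) = 1

variable {S}

theorem T_iff (h : HRules S) (m : ℕ) (x : L.E m) : T S m x ↔ x = L.z m := by
  constructor
  · intro hT
    by_contra hx
    by_cases hX : x ∈ L.X m
    · obtain ⟨b, hb⟩ := exists_rho L (m + 1)
      have h1 := h.sp m b
      have h2 := ((h.unf m b _).1 h1).2.2 x hX
      rw [hT _ _ h1] at h2
      exact hb h2.symm
    · obtain ⟨d, hd⟩ := exists_root S (m + 1)
      have h1 := hT _ _ (h.lam m x d hx hX)
      rw [S.sec_lam_self] at h1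
      exact hd h1
  · rintro rfl k b hk
    exact ((h.unf _ _ _).1 ((h.unf m b k).1 hk).2.1).1

theorem Lk_iff (h : HRules S) (m : ℕ) (x : L.E m) (hx : x ≠ L.z m) : Lk S m x ↔ x ∈ L.X m := by
  constructor
  · rintro ⟨y, hyx, hyz, hy⟩
    by_contra hX
    by_cases hyX : y ∈ L.X m
    · obtain ⟨b, hb⟩ := exists_rho L (m + 1)
      have h1 := h.sp m b
      have h2 := ((h.unf m b _).1 h1).2.2 y hyX
      rw [hy _ _ h1 (by rw [S.sec_sp_o m b x hx hX, map_one])] at h2
      exact hb h2.symm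
    · obtain ⟨d, hd⟩ := exists_root S (m + 1)
      have h1 := hy _ _ (h.lam m y d hyz hyX) (by rw [S.sec_lam_ne m y d x hyx.symm, map_one])
      rw [S.sec_lam_self] at h1
      exact hd h1
  · intro hX
    have h0 : ∃ y ∈ L.X m, y ≠ x := by
      obtain ⟨x1, h1, x2, h2, h12⟩ := L.X_two m
      by_cases hc : x1 = x
      · exact ⟨x2, h2, fun h => h12 (hc.trans h.symm)⟩
      · exact ⟨x1, h1, hc⟩
    obtain ⟨y, hyX, hyx⟩ := h0
    refine ⟨y, hyx, fun hc => L.z_not m (hc ▸ hyX), fun k b hk h1 => ?_⟩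
    have h2 := ((h.unf m b k).1 hk).2.2
    rw [h2 y hyX, ← h2 x hX, h1]

/-- the root of the section is trivial before the automorphism if and only if it is after it -/
theorem tr (hA : RulesA S) (h : HRules S) (m : ℕ) (a : MulAut (S.D m)) {k : S.D m} {b : L.B}
    (hk : S.HH m b k) (x : L.E m) :
    S.root (m + 1) (S.sec m (a k) (S.sg m a x)) = 1 ↔ S.root (m + 1) (S.sec m k x) = 1 := by
  rw [hA.sec_ap m a k x ((h.unf m b k).1 hk).1, hA.root_ap]
  constructor
  · intro h1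
    have h2 : S.root (m + 1) (S.sec m k x) = (S.sg (m + 1) (S.asc m a x))⁻¹ *
        (S.sg (m + 1) (S.asc m a x) * S.root (m + 1) (S.sec m k x) *
          (S.sg (m + 1) (S.asc m a x))⁻¹) * S.sg (m + 1) (S.asc m a x) := by group
    rw [h2, h1]; group
  · intro h1
    rw [h1]; group

theorem sg_cases (hA : RulesA S) (h : HRules S) (m : ℕ) (a : MulAut (S.D m))
    (ha : ∀ k, (∃ b, S.HH m b k) ↔ ∃ b, S.HH m b (a k)) :
    S.sg m a (L.z m) = L.z m ∧ (S.sg m a = 1 ∨ S.sg m a = L.J m) := by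
  have hT : ∀ x, T S m x → T S m (S.sg m a x) := by
    intro x hx k b hk
    obtain ⟨k', rfl⟩ : ∃ k', a k' = k := ⟨a.symm k, by simp⟩
    obtain ⟨b', hb'⟩ := (ha k').2 ⟨b, hk⟩
    exact (tr hA h m a hb' x).2 (hx k' b' hb')
  have hz : S.sg m a (L.z m) = L.z m := (T_iff h m _).1 (hT _ ((T_iff h m _).2 rfl))
  refine ⟨hz, L.rig m (S.sg m a) (fun g => hA.sg_P m a g) hz ?_⟩
  have hL : ∀ x, x ≠ L.z m → (Lk S m x ↔ Lk S m (S.sg m a x)) := by
    intro x hx
    constructor
    · rintro ⟨y, hyx, hyz, hy⟩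
      refine ⟨S.sg m a y, fun hc => hyx ((S.sg m a).injective hc),
        fun hc => hyz ((S.sg m a).injective (hc.trans hz.symm)), ?_⟩
      intro k b hk h1
      obtain ⟨k', rfl⟩ : ∃ k', a k' = k := ⟨a.symm k, by simp⟩
      obtain ⟨b', hb'⟩ := (ha k').2 ⟨b, hk⟩
      exact (tr hA h m a hb' y).2 (hy k' b' hb' ((tr hA h m a hb' x).1 h1))
    · rintro ⟨y', hyx, hyz, hy⟩
      obtain ⟨y, rfl⟩ := (S.sg m a).surjective y'
      refine ⟨y, fun hc => hyx (by rw [hc]), fun hc => hyz (by rw [hc, hz]), ?_⟩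
      intro k b hk h1
      obtain ⟨b', hb'⟩ := (ha k).1 ⟨b, hk⟩
      exact (tr hA h m a hk y).1 (hy _ b' hb' ((tr hA h m a hk x).2 h1))
  intro x
  by_cases hx : x = L.z m
  · subst hx
    rw [hz]
  · have hx' : S.sg m a x ≠ L.z m := fun hc => hx ((S.sg m a).injective (hc.trans hz.symm))
    rw [← Lk_iff h m x hx, ← Lk_iff h m _ hx']
    exact hL x hx

theorem t_G1 {L : Loc} (S : Sys L) (hA : RulesA S) (h : HRules S) : S_G1 S := by
  intro α hO h0
  have key : ∀ m, ∀ k, (∃ b, S.HH m b k) ↔ ∃ b, S.HH m b (α m k) := by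
    intro m
    induction m with
    | zero =>
      intro k
      rw [← h.mem, ← h.mem]
      exact h0 k
    | succ m ih =>
      have hz := (sg_cases hA h m (α m) ih).1
      have hs : ∀ k : S.D m, S.root m k = 1 →
          S.sec m (α m k) (L.z m) = α (m + 1) (S.sec m k (L.z m)) := by
        intro k hk
        have h1 := hA.sec_ap m (α m) k (L.z m) hk
        rw [hz] at h1
        rw [h1, hO m]
      intro k
      constructor
      · rintro ⟨b, hb⟩
        obtain ⟨k', hk', hs'⟩ := h.lamz m b k hb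
        obtain ⟨b', hb'⟩ := (ih k').1 ⟨b, hk'⟩
        refine ⟨b', ?_⟩
        have h1 := ((h.unf m b' _).1 hb').2.1
        rw [hs k' ((h.unf m b k').1 hk').1, hs'] at h1
        exact h1
      · rintro ⟨b, hb⟩
        obtain ⟨k', hk', hs'⟩ := h.lamz m b _ hb
        obtain ⟨k'', rfl⟩ : ∃ k'', α m k'' = k' := ⟨(α m).symm k', by simp⟩
        obtain ⟨b', hb'⟩ := (ih k'').2 ⟨b, hk'⟩
        have h1 := (h.unf m b' k'').1 hb'
        rw [hs k'' h1.1] at hs'
        have h2 := (α (m + 1)).injective hs'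
        rw [← h2]
        exact ⟨b', h1.2.1⟩
  intro m
  exact ⟨(sg_cases hA h m (α m) (key m)).2, key m⟩

end N861.CG
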